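import Pool.Agent.Helper46.ME.Data

namespace Pool.Agent.Helper46.ME

/-- positions on the lines through `0` -/
def ptab : ℕ := 0xc43126b8795a000b01c368a547290004106235c789ab0003c50124b7896a000a6890cb145372000a489c0b156372000739acb015648200034127650ab9c80007a35b98c062410007a35b98c602410007946ba8c230510008b26a97c543010007856ba9c231400009768cba523140000000000000000000

/-- sign bits on the lines through `0` -/
def etab : ℕ := 0xfc48fc68fc40fc78007c007e00070007a8078807e8078007f878000000

/-- position -/
def pos (v x : ℕ) : ℕ := Nat.mod (Nat.shiftRight ptab (Nat.mul 4 (Nat.add (Nat.mul 16 v) x))) 16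

/-- sign bit -/
def ebit (v x : ℕ) : Bool := tb etab (Nat.add (Nat.mul 16 v) x)

/-- check of the lines through `0` -/
def chk0 : Bool :=
  allr 1 14 fun v => allr 1 14 fun x => Nat.beq x v || allr 1 14 fun y => Nat.beq y v ||
    Nat.beq y x || (not (Nat.beq (pos v x) (pos v y)) &&
      not (xor (nb 0 v x y) (xor (xor (ebit v x) (ebit v y)) (Nat.blt (pos v y) (pos v x)))))

theorem chk0_true : chk0 = true := by decide +kernel

end Pool.Agent.Helper46.ME
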