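import Pool.Agent.Helper46.ME.Data

namespace Pool.Agent.Helper46.ME

/-- start triples and replacements of the directed cycles, number `14 g + f` for the program
`(g, f)` -/
def cyc : List (ℕ × ℕ × ℕ × List (ℕ × ℕ)) :=
  [(0, 0, 0, []),
   (6, 9, 10, [(2, 8), (1, 12), (0, 4), (1, 10), (2, 6), (0, 9)]),
   (1, 8, 10, [(0, 4), (2, 12), (1, 1), (2, 5), (0, 8), (2, 10)]),
   (1, 8, 10, [(0, 4), (2, 12), (1, 1), (2, 5), (0, 8), (2, 10)]),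
   (1, 8, 10, [(1, 3), (2, 6), (0, 5), (2, 8), (1, 1), (0, 10)]),
   (4, 12, 13, [(1, 2), (0, 7), (2, 11), (1, 4), (2, 12), (0, 13)]),
   (2, 11, 13, [(1, 10), (0, 3), (2, 4), (1, 2), (2, 11), (0, 13)]),
   (10, 11, 12, [(1, 2), (2, 3), (0, 5), (2, 11), (1, 10), (0, 12)]),
   (2, 11, 13, [(1, 10), (0, 3), (2, 4), (1, 2), (2, 11), (0, 13)]),
   (4, 12, 13, [(1, 8), (0, 1), (2, 6), (1, 4), (2, 12), (0, 13)]),
   (3, 7, 13, [(2, 2), (1, 8), (0, 12), (1, 13), (2, 3), (0, 7)]),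
   (3, 7, 13, [(2, 2), (1, 8), (0, 12), (1, 13), (2, 3), (0, 7)]),
   (2, 11, 13, [(2, 3), (1, 4), (0, 10), (1, 13), (2, 2), (0, 11)]),
   (6, 9, 10, [(2, 7), (0, 1), (1, 2), (2, 6), (1, 10), (0, 9)]),
   (6, 9, 10, [(1, 4), (0, 8), (2, 12), (1, 6), (2, 9), (0, 10)]),
   (0, 0, 0, []),
   (6, 9, 10, [(1, 0), (2, 13), (0, 7), (2, 9), (1, 6), (0, 10)]),
   (6, 9, 10, [(1, 0), (2, 13), (0, 7), (2, 9), (1, 6), (0, 10)]),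
   (2, 3, 11, [(1, 7), (2, 10), (0, 3), (2, 5), (1, 2), (2, 11)]),
   (6, 9, 10, [(1, 0), (2, 13), (0, 7), (2, 9), (1, 6), (0, 10)]),
   (4, 12, 13, [(1, 8), (0, 0), (2, 9), (1, 4), (2, 12), (0, 13)]),
   (0, 4, 6, [(1, 3), (0, 5), (2, 9), (1, 0), (2, 4), (0, 6)]),
   (3, 7, 13, [(2, 11), (1, 0), (2, 9), (0, 7), (2, 13), (1, 3)]),
   (10, 11, 12, [(1, 2), (2, 3), (0, 5), (2, 11), (1, 10), (0, 12)]),
   (0, 4, 6, [(2, 5), (1, 8), (0, 3), (1, 6), (2, 0), (0, 4)]),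
   (6, 9, 10, [(2, 7), (0, 0), (1, 13), (2, 6), (1, 10), (0, 9)]),
   (2, 11, 13, [(2, 3), (1, 4), (0, 10), (1, 13), (2, 2), (0, 11)]),
   (10, 11, 12, [(2, 5), (0, 2), (1, 3), (2, 10), (1, 12), (0, 11)]),
   (1, 8, 10, [(2, 5), (1, 4), (2, 12), (0, 8), (2, 10), (1, 1)]),
   (6, 9, 10, [(2, 7), (0, 0), (1, 13), (2, 6), (1, 10), (0, 9)]),
   (0, 0, 0, []),
   (1, 7, 11, [(2, 10), (1, 12), (0, 5), (1, 11), (2, 1), (0, 7)]),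
   (8, 9, 12, [(1, 0), (2, 1), (0, 6), (2, 9), (1, 8), (0, 12)]),
   (3, 7, 13, [(1, 6), (2, 8), (0, 7), (2, 12), (1, 3), (2, 13)]),
   (1, 7, 11, [(1, 4), (2, 13), (0, 5), (2, 7), (1, 1), (0, 11)]),
   (0, 3, 9, [(2, 11), (0, 1), (2, 8), (1, 0), (2, 9), (0, 3)]),
   (6, 9, 10, [(0, 12), (2, 13), (1, 6), (2, 7), (0, 9), (2, 10)]),
   (1, 8, 10, [(2, 5), (1, 4), (2, 12), (0, 8), (2, 10), (1, 1)]),
   (1, 6, 12, [(2, 0), (1, 9), (0, 4), (1, 12), (2, 1), (0, 6)]),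
   (0, 4, 6, [(1, 10), (2, 13), (0, 3), (2, 4), (1, 0), (0, 6)]),
   (1, 7, 11, [(2, 5), (0, 4), (1, 13), (2, 1), (1, 11), (0, 7)]),
   (1, 7, 11, [(0, 4), (2, 12), (1, 1), (2, 5), (0, 7), (2, 11)]),
   (1, 8, 10, [(2, 5), (1, 4), (2, 12), (0, 8), (2, 10), (1, 1)]),
   (6, 9, 10, [(2, 7), (0, 0), (1, 13), (2, 6), (1, 10), (0, 9)]),
   (1, 7, 11, [(1, 5), (0, 10), (2, 12), (1, 1), (2, 7), (0, 11)]),
   (0, 0, 0, []),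
   (0, 2, 8, [(2, 11), (0, 10), (2, 13), (1, 0), (2, 8), (0, 2)]),
   (4, 7, 10, [(2, 0), (1, 2), (0, 11), (2, 7), (0, 10), (1, 4)]),
   (1, 8, 10, [(1, 0), (2, 4), (0, 5), (2, 8), (1, 1), (0, 10)]),
   (0, 2, 8, [(2, 10), (1, 12), (2, 13), (0, 2), (2, 8), (1, 0)]),
   (1, 6, 12, [(1, 4), (0, 0), (2, 9), (1, 1), (2, 6), (0, 12)]),
   (1, 8, 10, [(2, 5), (1, 4), (2, 12), (0, 8), (2, 10), (1, 1)]),
   (1, 6, 12, [(2, 0), (1, 9), (0, 4), (1, 12), (2, 1), (0, 6)]),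
   (7, 8, 13, [(1, 0), (2, 9), (0, 1), (2, 8), (1, 7), (0, 13)]),
   (1, 8, 10, [(2, 5), (0, 0), (1, 4), (2, 1), (1, 10), (0, 8)]),
   (5, 7, 12, [(2, 2), (1, 6), (0, 8), (2, 7), (0, 12), (1, 5)]),
   (1, 8, 10, [(2, 5), (0, 3), (1, 6), (2, 1), (1, 10), (0, 8)]),
   (2, 3, 11, [(2, 5), (0, 7), (2, 10), (1, 2), (2, 11), (0, 3)]),
   (8, 9, 12, [(2, 6), (0, 0), (1, 1), (2, 8), (1, 12), (0, 9)]),
   (0, 2, 8, [(1, 10), (2, 13), (0, 2), (2, 11), (1, 0), (2, 8)]),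
   (0, 0, 0, []),
   (3, 9, 10, [(1, 1), (2, 6), (0, 0), (2, 9), (1, 3), (0, 10)]),
   (2, 11, 13, [(1, 0), (2, 5), (0, 7), (2, 11), (1, 2), (0, 13)]),
   (8, 9, 12, [(2, 6), (0, 0), (1, 1), (2, 8), (1, 12), (0, 9)]),
   (2, 11, 13, [(1, 0), (2, 5), (0, 7), (2, 11), (1, 2), (0, 13)]),
   (2, 11, 13, [(1, 0), (2, 5), (0, 7), (2, 11), (1, 2), (0, 13)]),
   (8, 9, 12, [(1, 0), (2, 1), (0, 6), (2, 9), (1, 8), (0, 12)]),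
   (8, 9, 12, [(1, 0), (2, 1), (0, 6), (2, 9), (1, 8), (0, 12)]),
   (1, 7, 11, [(2, 5), (1, 2), (2, 13), (0, 7), (2, 11), (1, 1)]),
   (1, 7, 11, [(1, 2), (2, 6), (0, 5), (2, 7), (1, 1), (0, 11)]),
   (4, 12, 13, [(2, 7), (1, 11), (0, 2), (1, 13), (2, 4), (0, 12)]),
   (6, 9, 10, [(2, 7), (0, 0), (1, 13), (2, 6), (1, 10), (0, 9)]),
   (3, 7, 13, [(2, 12), (0, 6), (2, 8), (1, 3), (2, 13), (0, 7)]),
   (4, 7, 10, [(0, 2), (2, 11), (1, 0), (2, 4), (0, 7), (1, 10)]),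
   (3, 9, 10, [(2, 0), (0, 1), (1, 6), (2, 3), (1, 10), (0, 9)]),
   (0, 0, 0, []),
   (3, 9, 10, [(2, 4), (1, 12), (0, 8), (1, 10), (2, 3), (0, 9)]),
   (4, 12, 13, [(2, 2), (0, 1), (1, 11), (2, 4), (1, 13), (0, 12)]),
   (6, 9, 10, [(0, 12), (2, 13), (1, 6), (2, 7), (0, 9), (2, 10)]),
   (0, 4, 6, [(1, 3), (0, 1), (2, 7), (1, 0), (2, 4), (0, 6)]),
   (7, 8, 13, [(1, 0), (2, 9), (0, 3), (2, 11), (1, 1), (2, 8), (0, 7), (1, 13)]),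
   (0, 3, 7, [(1, 10), (2, 12), (0, 2), (2, 3), (1, 0), (0, 7)]),
   (3, 9, 10, [(1, 1), (2, 6), (0, 0), (2, 9), (1, 3), (0, 10)]),
   (8, 9, 12, [(1, 0), (2, 1), (0, 6), (2, 9), (1, 8), (0, 12)]),
   (2, 11, 13, [(2, 3), (1, 4), (0, 10), (1, 13), (2, 2), (0, 11)]),
   (4, 12, 13, [(2, 0), (1, 9), (0, 8), (1, 13), (2, 4), (0, 12)]),
   (1, 7, 11, [(2, 5), (0, 4), (1, 13), (2, 1), (1, 11), (0, 7)]),
   (1, 8, 10, [(2, 5), (0, 0), (1, 4), (2, 1), (1, 10), (0, 8)]),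
   (2, 11, 13, [(2, 7), (0, 0), (1, 5), (2, 2), (1, 13), (0, 11)]),
   (3, 9, 10, [(1, 8), (0, 4), (2, 12), (1, 3), (2, 9), (0, 10)]),
   (0, 0, 0, []),
   (5, 8, 13, [(2, 9), (1, 10), (0, 12), (1, 13), (2, 5), (0, 8)]),
   (3, 7, 13, [(1, 2), (2, 5), (0, 7), (2, 12), (1, 3), (2, 13)]),
   (2, 4, 8, [(1, 12), (0, 0), (1, 1), (2, 2), (1, 4), (0, 8)]),
   (1, 7, 11, [(2, 9), (0, 0), (2, 13), (1, 1), (2, 11), (0, 7)]),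
   (7, 8, 13, [(1, 0), (0, 1), (2, 2), (1, 7), (2, 8), (0, 13)]),
   (2, 11, 13, [(2, 3), (1, 4), (0, 10), (1, 13), (2, 2), (0, 11)]),
   (0, 2, 8, [(0, 1), (2, 7), (1, 0), (2, 10), (0, 2), (2, 8)]),
   (10, 11, 12, [(2, 5), (0, 2), (1, 3), (2, 10), (1, 12), (0, 11)]),
   (0, 4, 6, [(2, 5), (1, 9), (0, 3), (1, 6), (2, 0), (0, 4)]),
   (0, 3, 9, [(1, 1), (2, 8), (0, 3), (2, 11), (1, 0), (2, 9)]),
   (0, 2, 8, [(0, 12), (2, 13), (1, 0), (2, 10), (0, 2), (2, 8)]),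
   (8, 9, 12, [(1, 0), (2, 1), (0, 6), (2, 9), (1, 8), (0, 12)]),
   (4, 12, 13, [(1, 1), (2, 11), (0, 2), (2, 12), (1, 4), (0, 13)]),
   (5, 8, 13, [(1, 12), (0, 9), (2, 10), (1, 5), (2, 8), (0, 13)]),
   (0, 0, 0, []),
   (3, 5, 6, [(0, 4), (2, 12), (1, 3), (2, 9), (0, 5), (2, 6)]),
   (10, 11, 12, [(2, 5), (0, 2), (1, 3), (2, 10), (1, 12), (0, 11)]),
   (3, 5, 6, [(1, 0), (0, 2), (2, 11), (1, 3), (2, 5), (0, 6)]),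
   (4, 12, 13, [(1, 2), (0, 0), (2, 5), (1, 4), (2, 12), (0, 13)]),
   (2, 3, 13, [(2, 5), (1, 6), (2, 8), (0, 3), (2, 13), (1, 2)]),
   (0, 3, 9, [(2, 11), (0, 1), (2, 8), (1, 0), (2, 9), (0, 3)]),
   (2, 11, 13, [(2, 3), (1, 4), (0, 10), (1, 13), (2, 2), (0, 11)]),
   (3, 7, 13, [(0, 0), (2, 9), (1, 3), (2, 11), (0, 7), (2, 13)]),
   (6, 9, 10, [(2, 7), (1, 12), (2, 13), (0, 9), (2, 10), (1, 6)]),
   (1, 6, 12, [(2, 0), (1, 9), (0, 4), (1, 12), (2, 1), (0, 6)]),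
   (2, 11, 13, [(2, 7), (0, 0), (1, 5), (2, 2), (1, 13), (0, 11)]),
   (6, 9, 10, [(2, 7), (1, 12), (2, 13), (0, 9), (2, 10), (1, 6)]),
   (3, 7, 13, [(2, 12), (0, 2), (2, 5), (1, 3), (2, 13), (0, 7)]),
   (3, 5, 6, [(2, 9), (1, 4), (2, 12), (0, 5), (2, 6), (1, 3)]),
   (0, 0, 0, []),
   (2, 11, 13, [(2, 3), (1, 4), (0, 10), (1, 13), (2, 2), (0, 11)]),
   (4, 12, 13, [(1, 2), (0, 1), (2, 5), (1, 4), (2, 12), (0, 13)]),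
   (3, 5, 6, [(0, 4), (2, 12), (1, 3), (2, 9), (0, 5), (2, 6)]),
   (6, 9, 10, [(2, 0), (1, 1), (0, 4), (1, 10), (2, 6), (0, 9)]),
   (1, 6, 12, [(1, 4), (0, 0), (2, 9), (1, 1), (2, 6), (0, 12)]),
   (4, 12, 13, [(2, 1), (1, 6), (0, 8), (1, 13), (2, 4), (0, 12)]),
   (10, 11, 12, [(2, 5), (0, 2), (1, 3), (2, 10), (1, 12), (0, 11)]),
   (1, 8, 10, [(0, 4), (2, 12), (1, 1), (2, 5), (0, 8), (2, 10)]),
   (1, 8, 10, [(0, 4), (2, 12), (1, 1), (2, 5), (0, 8), (2, 10)]),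
   (2, 11, 13, [(2, 7), (0, 0), (1, 5), (2, 2), (1, 13), (0, 11)]),
   (0, 4, 6, [(2, 1), (1, 7), (0, 3), (1, 6), (2, 0), (0, 4)]),
   (2, 4, 8, [(2, 0), (1, 1), (0, 8), (1, 12), (2, 2), (1, 4)]),
   (10, 11, 12, [(1, 2), (2, 3), (0, 5), (2, 11), (1, 10), (0, 12)]),
   (2, 11, 13, [(1, 10), (0, 3), (2, 4), (1, 2), (2, 11), (0, 13)]),
   (0, 0, 0, []),
   (3, 7, 13, [(2, 2), (1, 8), (0, 12), (1, 13), (2, 3), (0, 7)]),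
   (3, 7, 13, [(2, 2), (1, 8), (0, 12), (1, 13), (2, 3), (0, 7)]),
   (2, 11, 13, [(2, 3), (1, 4), (0, 10), (1, 13), (2, 2), (0, 11)]),
   (8, 10, 12, [(2, 7), (1, 1), (0, 2), (2, 10), (0, 12), (1, 8)]),
   (3, 7, 13, [(1, 12), (0, 2), (2, 8), (1, 3), (2, 7), (0, 13)]),
   (0, 4, 6, [(1, 3), (0, 5), (2, 8), (1, 0), (2, 4), (0, 6)]),
   (1, 6, 12, [(1, 4), (0, 0), (2, 9), (1, 1), (2, 6), (0, 12)]),
   (1, 6, 12, [(1, 4), (0, 0), (2, 9), (1, 1), (2, 6), (0, 12)]),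
   (8, 9, 12, [(2, 6), (0, 0), (1, 1), (2, 8), (1, 12), (0, 9)]),
   (7, 8, 13, [(2, 1), (0, 3), (1, 11), (2, 0), (1, 9), (0, 7), (1, 13), (2, 8)]),
   (1, 7, 11, [(1, 0), (2, 13), (0, 7), (2, 9), (1, 1), (2, 11)]),
   (3, 5, 6, [(2, 2), (1, 11), (0, 0), (1, 6), (2, 3), (0, 5)]),
   (4, 12, 13, [(2, 1), (1, 5), (0, 2), (1, 13), (2, 4), (0, 12)]),
   (3, 7, 13, [(1, 12), (0, 2), (2, 8), (1, 3), (2, 7), (0, 13)]),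
   (0, 0, 0, []),
   (1, 6, 12, [(2, 0), (1, 9), (0, 4), (1, 12), (2, 1), (0, 6)]),
   (1, 7, 11, [(1, 5), (0, 2), (2, 3), (1, 1), (2, 7), (0, 11)]),
   (0, 4, 6, [(1, 2), (2, 11), (0, 3), (2, 4), (1, 0), (0, 6)]),
   (3, 7, 13, [(1, 12), (0, 2), (2, 8), (1, 3), (2, 7), (0, 13)]),
   (6, 9, 10, [(1, 0), (2, 13), (0, 7), (2, 9), (1, 6), (0, 10)]),
   (0, 4, 6, [(2, 3), (0, 10), (1, 13), (2, 0), (1, 6), (0, 4)]),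
   (7, 8, 13, [(2, 1), (0, 0), (1, 9), (2, 7), (1, 13), (0, 8)]),
   (8, 9, 12, [(2, 6), (0, 0), (1, 1), (2, 8), (1, 12), (0, 9)]),
   (0, 3, 7, [(2, 2), (0, 10), (1, 12), (2, 0), (1, 7), (0, 3)]),
   (7, 8, 13, [(2, 1), (1, 2), (0, 0), (1, 13), (2, 7), (0, 8)]),
   (4, 12, 13, [(2, 0), (1, 5), (0, 2), (1, 13), (2, 4), (0, 12)]),
   (3, 5, 6, [(2, 9), (1, 4), (2, 12), (0, 5), (2, 6), (1, 3)]),
   (3, 7, 13, [(1, 12), (0, 2), (2, 8), (1, 3), (2, 7), (0, 13)]),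
   (1, 6, 12, [(1, 4), (0, 0), (2, 9), (1, 1), (2, 6), (0, 12)]),
   (0, 0, 0, []),
   (7, 8, 13, [(1, 0), (0, 1), (2, 2), (1, 7), (2, 8), (0, 13)]),
   (4, 7, 10, [(0, 3), (2, 5), (1, 0), (2, 4), (0, 7), (1, 10)]),
   (2, 11, 13, [(1, 10), (0, 3), (2, 4), (1, 2), (2, 11), (0, 13)]),
   (2, 11, 13, [(1, 10), (0, 3), (2, 4), (1, 2), (2, 11), (0, 13)]),
   (1, 7, 11, [(1, 4), (2, 13), (0, 5), (2, 7), (1, 1), (0, 11)]),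
   (1, 8, 10, [(1, 0), (2, 4), (0, 5), (2, 8), (1, 1), (0, 10)]),
   (1, 7, 11, [(0, 2), (2, 13), (1, 1), (2, 5), (0, 7), (2, 11)]),
   (3, 9, 10, [(2, 0), (0, 1), (1, 6), (2, 3), (1, 10), (0, 9)]),
   (2, 11, 13, [(1, 10), (0, 3), (2, 4), (1, 2), (2, 11), (0, 13)]),
   (2, 3, 13, [(0, 6), (2, 8), (1, 2), (2, 5), (0, 3), (2, 13)]),
   (6, 9, 10, [(1, 4), (0, 0), (2, 1), (1, 6), (2, 9), (0, 10)]),
   (2, 11, 13, [(1, 10), (0, 3), (2, 4), (1, 2), (2, 11), (0, 13)]),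
   (1, 7, 11, [(2, 2), (1, 3), (0, 5), (1, 11), (2, 1), (0, 7)]),
   (7, 8, 13, [(2, 1), (1, 2), (0, 0), (1, 13), (2, 7), (0, 8)]),
   (0, 0, 0, []),
   (6, 9, 10, [(2, 7), (1, 2), (2, 8), (0, 9), (2, 10), (1, 6)]),
   (6, 9, 10, [(1, 1), (2, 2), (0, 7), (2, 9), (1, 6), (0, 10)]),
   (10, 11, 12, [(1, 2), (2, 3), (0, 5), (2, 11), (1, 10), (0, 12)]),
   (1, 7, 11, [(2, 5), (1, 4), (2, 12), (0, 7), (2, 11), (1, 1)]),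
   (5, 7, 12, [(0, 6), (2, 8), (1, 2), (2, 5), (0, 7), (1, 12)]),
   (1, 7, 11, [(2, 5), (0, 2), (1, 6), (2, 1), (1, 11), (0, 7)]),
   (8, 9, 12, [(2, 6), (0, 0), (1, 1), (2, 8), (1, 12), (0, 9)]),
   (0, 2, 8, [(2, 10), (1, 1), (2, 7), (0, 2), (2, 8), (1, 0)]),
   (0, 3, 9, [(1, 1), (2, 8), (0, 3), (2, 11), (1, 0), (2, 9)]),
   (1, 6, 12, [(2, 0), (1, 9), (0, 4), (1, 12), (2, 1), (0, 6)]),
   (8, 10, 12, [(0, 1), (2, 2), (1, 7), (2, 8), (0, 10), (1, 12)]),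
   (0, 4, 6, [(2, 3), (0, 2), (1, 11), (2, 0), (1, 6), (0, 4)]),
   (4, 7, 10, [(2, 0), (1, 3), (0, 5), (2, 7), (0, 10), (1, 4)]),
   (6, 9, 10, [(0, 2), (2, 8), (1, 6), (2, 7), (0, 9), (2, 10)]),
   (0, 0, 0, [])]

/-- all entries smaller than 14 and distinct from each other; `g`, `f` distinct and not among
`u, v` -/
def upb (g f u v c d : ℕ) : Bool :=
  Nat.blt c 14 && Nat.blt d 14 && not (Nat.beq u v) && not (Nat.beq u c) && not (Nat.beq u d) &&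
    not (Nat.beq v c) && not (Nat.beq v d) && not (Nat.beq c d) && not (Nat.beq f g) &&
    not (Nat.beq u f) && not (Nat.beq v f) && not (Nat.beq u g) && not (Nat.beq v g) &&
    not (Nat.beq c g) && not (Nat.beq d g) &&
    not (xor (xor (nb (u + 1) (v + 1) (d + 1) (c + 1)) (nb (u + 1) (v + 1) (f + 1) (g + 1)))
      (xor (nb (u + 1) (v + 1) (d + 1) (g + 1)) (nb (u + 1) (v + 1) (c + 1) (g + 1))))

/-- check of a walk starting at `(a, b, c)` and ending at a triple with the entries `p, q, r` -/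
def run (g f p q r : ℕ) : ℕ → ℕ → ℕ → List (ℕ × ℕ) → Bool
  | a, b, c, [] =>
    (Nat.beq p a && Nat.beq q b && Nat.beq r c) || (Nat.beq p a && Nat.beq q c && Nat.beq r b) ||
    (Nat.beq p b && Nat.beq q a && Nat.beq r c) || (Nat.beq p b && Nat.beq q c && Nat.beq r a) ||
    (Nat.beq p c && Nat.beq q a && Nat.beq r b) || (Nat.beq p c && Nat.beq q b && Nat.beq r a)
  | a, b, c, (k, w) :: l =>
    match k with
    | 0 => upb g f b c a w && run g f p q r w b c l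
    | 1 => upb g f a c b w && run g f p q r a w c l
    | _ => upb g f a b c w && run g f p q r a b w l

/-- check of one cycle: not empty, entries smaller than 14 -/
def okc (g f : ℕ) (e : ℕ × ℕ × ℕ × List (ℕ × ℕ)) : Bool :=
  Nat.blt e.1 14 && Nat.blt e.2.1 14 && Nat.blt e.2.2.1 14 && not e.2.2.2.isEmpty &&
    run g f e.1 e.2.1 e.2.2.1 e.1 e.2.1 e.2.2.1 e.2.2.2

/-- check of all cycles -/
def chkC : Bool :=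
  allr 0 14 fun g => allr 0 14 fun f => Nat.beq g f || okc g f (cyc.getD (14 * g + f) (0, 0, 0, []))

theorem chkC_true : chkC = true := by decide +kernel

end Pool.Agent.Helper46.ME
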